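import Pool.Agent.H21.RC.Near
import Pool.Agent.H21.L.R_pool_sql_team_seeded_9f66d723.W5h26.ML.Curve

/-!
# Mean laws for linear combinations
-/

set_option autoImplicit false

namespace Pool.Agent.H21.RD

open MeasureTheory Filter Topology Set
open Pool.Agent.H21.RC
open Pool.Agent.W263.BSD (LInt lap lapC lapC_ofReal lap_sub lap_add lap_const_mul ell ell_LInt
  ell_meas ell_nonneg ell_mono ell_lap_limit lap_mono log_le_ell)

variable {ι : Type} [Fintype ι]

/-- the data near the centre, without bounds for the functions themselves -/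
structure Cen (a : ι → ℝ → ℝ) (Φ G : ι → ℂ → ℂ) (c0 : ℝ) (r : ι → ℕ) (c : ι → ℝ) : Prop where
  F : Fam a Φ G c0
  Gb : ∀ i, ∃ C : ℝ, ∀ᶠ x : ℝ in 𝓝[>] 0, |(G i x).re| ≤ C
  cpos : ∀ i, 0 < c i
  lim : ∀ i, Tendsto (fun x : ℝ => ‖Φ i x‖ / x ^ r i) (𝓝[>] 0) (𝓝 (c i))

variable {a : ι → ℝ → ℝ} {Φ G : ι → ℂ → ℂ} {c0 : ℝ} {r : ι → ℕ} {c : ι → ℝ} {w : ι → ℝ}

theorem Cen.ne_near (H : Cen a Φ G c0 r c) : ∀ᶠ x : ℝ in 𝓝[>] 0, ∀ i, Φ i x ≠ 0 := by
  rw [eventually_all]
  intro i
  filter_upwards [(H.lim i).eventually_ne (H.cpos i).ne'] with x hx h0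
  rw [h0, norm_zero, zero_div] at hx
  exact hx rfl

theorem Cen.log_sum (H : Cen a Φ G c0 r c) :
    Tendsto (fun x : ℝ => ∑ i, w i * Real.log ‖Φ i x‖ - RR w r * Real.log x) (𝓝[>] 0)
      (𝓝 (∑ i, w i * Real.log (c i))) := by
  have h1 : Tendsto (fun x : ℝ => ∑ i, w i * Real.log (‖Φ i x‖ / x ^ r i)) (𝓝[>] 0)
      (𝓝 (∑ i, w i * Real.log (c i))) :=
    tendsto_finsetSum _ fun i _ => ((H.lim i).log (H.cpos i).ne').const_mul _
  refine h1.congr' ?_
  filter_upwards [H.ne_near, self_mem_nhdsWithin] with x h2 h3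
  have hx : (0 : ℝ) < x := h3
  unfold RR
  rw [Finset.sum_mul, ← Finset.sum_sub_distrib]
  refine Finset.sum_congr rfl fun i _ => ?_
  rw [Real.log_div (norm_ne_zero_iff.2 (h2 i)) (pow_pos hx _).ne', Real.log_pow]
  ring

theorem Cen.lap_near (H : Cen a Φ G c0 r c) (hconv : ∀ x > 0, LInt (comb w a) x) :
    ∀ᶠ x : ℝ in 𝓝[>] 0, x * lap (comb w a) x =
      ∑ i, w i * (G i x).re - ∑ i, w i * Real.log ‖Φ i x‖ := by
  filter_upwards [H.ne_near, self_mem_nhdsWithin] with x h2 h3
  exact H.F.lap_re le_rfl hconv h3 h2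

theorem Cen.G_bound (H : Cen a Φ G c0 r c) :
    ∃ C : ℝ, ∀ᶠ x : ℝ in 𝓝[>] 0, |∑ i, w i * (G i x).re| ≤ C := by
  choose C hC using H.Gb
  refine ⟨∑ i, |w i| * C i, ?_⟩
  filter_upwards [eventually_all.2 hC] with x hx
  refine (Finset.abs_sum_le_sum_abs _ _).trans (Finset.sum_le_sum fun i _ => ?_)
  rw [abs_mul]
  exact mul_le_mul_of_nonneg_left (hx i) (abs_nonneg _)

/-- **The weighted order from an upper bound.** -/
theorem Cen.order_le (H : Cen a Φ G c0 r c) (hconv : ∀ x > 0, LInt (comb w a) x) {κ : ℝ → ℝ}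
    {ρ C : ℝ} (hκi : ∀ x > 0, LInt κ x) (hle : ∀ u, 0 < u → comb w a u ≤ κ u)
    (hκ : ∀ᶠ x : ℝ in 𝓝[>] 0, x * lap κ x + ρ * Real.log x ≤ C) : RR w r ≤ ρ := by
  obtain ⟨C1, hC1⟩ := H.G_bound (w := w)
  set L := ∑ i, w i * Real.log (c i) with hL
  have h1 : ∀ᶠ x : ℝ in 𝓝[>] 0,
      |∑ i, w i * Real.log ‖Φ i x‖ - RR w r * Real.log x| ≤ |L| + 1 := by
    have := (H.log_sum (w := w)).abs.eventually (gt_mem_nhds (show |L| < |L| + 1 by linarith))
    filter_upwards [this] with x hx using hx.le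
  have h2 : ∀ᶠ x : ℝ in 𝓝[>] 0, (ρ - RR w r) * Real.log x ≤ C + C1 + (|L| + 1) := by
    filter_upwards [hC1, h1, hκ, H.lap_near hconv, self_mem_nhdsWithin] with x e1 e2 e3 e4 e5
    have hx : (0 : ℝ) < x := e5
    have e6 := mul_le_mul_of_nonneg_left (lap_mono (hconv x hx) (hκi x hx) hle) hx.le
    rw [e4] at e6
    have e7 := (abs_le.1 e1).1
    have e8 := (abs_le.1 e2).2
    have e9 : (ρ - RR w r) * Real.log x = ρ * Real.log x - RR w r * Real.log x := by ring
    rw [e9]
    linarith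
  by_contra hcon
  have ht : 0 < RR w r - ρ := by linarith [not_le.1 hcon]
  have h3 : Tendsto (fun x : ℝ => (ρ - RR w r) * Real.log x) (𝓝[>] 0) atTop :=
    Real.tendsto_log_nhdsGT_zero.const_mul_atBot_of_neg (by linarith)
  obtain ⟨x, h4, h5⟩ := (h2.and (h3.eventually (eventually_gt_atTop (C + C1 + (|L| + 1))))).exists
  linarith

/-! ### mean bounds -/

/-- `ell u - log u` is between `0` and `3` for `u ≥ 1` -/
theorem ell_log {u : ℝ} (hu : 1 ≤ u) : |ell u - Real.log u| ≤ 3 := by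
  have h0 : 0 < u := by linarith
  have h1 := log_le_ell h0
  have h2 : ell u ≤ Real.log u + 3 := by
    unfold ell
    have h3 : u + Real.exp 1 ≤ u * 4 := by
      have := Real.exp_one_lt_d9
      linarith
    have h4 := Real.log_le_log (by positivity) h3
    rw [Real.log_mul h0.ne' (by norm_num)] at h4
    have h5 := Real.log_le_sub_one_of_pos (show (0 : ℝ) < 4 by norm_num)
    linarith
  rw [abs_le]
  constructor <;> linarith

/-- the positive part of the deviation -/
noncomputable def kp (f : ℝ → ℝ) (ρ u : ℝ) : ℝ := max (f u - ρ * ell u) 0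

theorem kp_meas {f : ℝ → ℝ} (hf : Measurable f) (ρ : ℝ) : Measurable (kp f ρ) :=
  (hf.sub (ell_meas.const_mul ρ)).max measurable_const

theorem f_le_kp (f : ℝ → ℝ) (ρ u : ℝ) : f u ≤ kp f ρ u + ρ * ell u := by
  unfold kp
  have := le_max_left (f u - ρ * ell u) 0
  linarith

/-- functions of exponential growth -/
def EG (f : ℝ → ℝ) : Prop := Measurable f ∧ ∃ C σ : ℝ, 0 < σ ∧ ∀ u, |f u| ≤ C * Real.exp (σ * u)

theorem exp_li {f : ℝ → ℝ} (hf : EG f) (a b : ℝ) : IntegrableOn f (Ioc a b) := by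
  obtain ⟨hm, C, σ, -, hC⟩ := hf
  have h1 : IntegrableOn (fun u : ℝ => C * Real.exp (σ * u)) (Ioc a b) :=
    (Continuous.integrableOn_Icc (by fun_prop)).mono_set Ioc_subset_Icc_self
  exact h1.mono' hm.aestronglyMeasurable (Eventually.of_forall fun u => hC u)

/-- passage from the mean bound with `log` to Laplace transforms -/
theorem mean_kp {f : ℝ → ℝ} (hf : EG f) (hf0 : ∀ u ≤ 0, f u = 0) {ρ B : ℝ}
    (h : ∀ᶠ T : ℝ in atTop, ∫ u in (1 : ℝ)..T, max (f u - ρ * Real.log u) 0 ≤ B * T) :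
    (∀ x > 0, LInt (kp f ρ) x) ∧ ∃ C : ℝ, ∀ᶠ x : ℝ in 𝓝[>] 0, |x * lap (kp f ρ) x| ≤ C := by
  obtain ⟨hm, C, σ, hσ, hC⟩ := hf
  have hC0 : 0 ≤ C := by
    have := (abs_nonneg _).trans (hC 0)
    simpa using this
  -- the truncated function
  set k : ℝ → ℝ := fun u => (Ioi (0 : ℝ)).indicator (kp f ρ) u with hk
  have hkm : Measurable k := (kp_meas hm ρ).indicator measurableSet_Ioi
  have hell : ∀ u : ℝ, 0 < u → ell u ≤ 3 * Real.exp (u) := by
    intro u hu
    have h1 : u + Real.exp 1 ≤ Real.exp (u + 2) := by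
      have e1 := Real.add_one_le_exp u
      have e2 : Real.exp (u + 2) = Real.exp u * Real.exp 2 := Real.exp_add _ _
      have e3 : Real.exp 1 ≤ Real.exp 2 := Real.exp_le_exp.2 (by norm_num)
      have e4 : (1 : ℝ) ≤ Real.exp u := Real.one_le_exp hu.le
      have e5 : (2 : ℝ) ≤ Real.exp 2 := by linarith [Real.add_one_le_exp (2 : ℝ)]
      rw [e2]
      nlinarith
    have h2 : ell u ≤ u + 2 := by
      unfold ell
      have := Real.log_le_log (by positivity) h1
      rwa [Real.log_exp] at this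
    have h3 := Real.add_one_le_exp u
    have h4 : (1 : ℝ) ≤ Real.exp u := Real.one_le_exp hu.le
    linarith
  have hkb : ∀ u, |k u| ≤ (C + 3 * |ρ|) * Real.exp ((σ + 1) * u) := by
    intro u
    by_cases hu : 0 < u
    · have e0 : k u = kp f ρ u := by
        rw [hk]
        exact indicator_of_mem (show u ∈ Ioi (0 : ℝ) from hu) _
      rw [e0]
      unfold kp
      rw [abs_of_nonneg (le_max_right _ _)]
      refine max_le ?_ (by positivity)
      have e1 := (abs_le.1 (hC u)).2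
      have e2 := hell u hu
      have e3 : |ρ * ell u| ≤ |ρ| * (3 * Real.exp u) := by
        rw [abs_mul, abs_of_nonneg (show 0 ≤ ell u by linarith [ell_nonneg hu.le])]
        exact mul_le_mul_of_nonneg_left e2 (abs_nonneg _)
      have e4 := (abs_le.1 e3).1
      have e5 : Real.exp (σ * u) ≤ Real.exp ((σ + 1) * u) := Real.exp_le_exp.2 (by nlinarith)
      have e6 : Real.exp u ≤ Real.exp ((σ + 1) * u) := Real.exp_le_exp.2 (by nlinarith)
      have e7 := mul_le_mul_of_nonneg_left e5 hC0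
      have e8 := mul_le_mul_of_nonneg_left e6 (show 0 ≤ 3 * |ρ| by positivity)
      nlinarith
    · have e0 : k u = 0 := by
        rw [hk]
        exact indicator_of_notMem (by simpa using hu) _
      rw [e0, abs_zero]
      positivity
  have hint : ∀ᶠ T : ℝ in atTop, ∫ u in (1 : ℝ)..T, |k u| ≤ (|B| + 3 * |ρ| + 1) * T := by
    filter_upwards [h, eventually_ge_atTop 1] with T h1 h2
    have i0 : IntegrableOn (fun u => f u - ρ * Real.log u) (Ioc 1 T) := by
      refine (exp_li ⟨hm, C, σ, hσ, hC⟩ 1 T).sub ?_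
      refine (ContinuousOn.integrableOn_Icc ?_).mono_set Ioc_subset_Icc_self
      refine continuousOn_const.mul (Real.continuousOn_log.mono fun u hu => ?_)
      have : (1 : ℝ) ≤ u := hu.1
      simp only [mem_compl_iff, mem_singleton_iff]
      linarith
    have i1 : IntervalIntegrable (fun u => max (f u - ρ * Real.log u) 0) volume 1 T := by
      rw [intervalIntegrable_iff_integrableOn_Ioc_of_le h2]
      exact i0.pos_part
    have i2 : IntervalIntegrable (fun _ : ℝ => 3 * |ρ|) volume 1 T := intervalIntegrable_const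
    have i3 : IntervalIntegrable (fun u => |k u|) volume 1 T := by
      rw [intervalIntegrable_iff_integrableOn_Ioc_of_le h2]
      exact (exp_li ⟨hkm, _, _, by linarith, hkb⟩ 1 T).abs
    have h3 : ∫ u in (1 : ℝ)..T, |k u| ≤
        ∫ u in (1 : ℝ)..T, (max (f u - ρ * Real.log u) 0 + 3 * |ρ|) := by
      refine intervalIntegral.integral_mono_on h2 i3 (i1.add i2) fun u hu => ?_
      have hu0 : 0 < u := by linarith [hu.1]
      have e0 : k u = kp f ρ u := by
        rw [hk]
        exact indicator_of_mem (show u ∈ Ioi (0 : ℝ) from hu0) _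
      rw [e0]
      unfold kp
      rw [abs_of_nonneg (le_max_right _ _)]
      have e1 := ell_log hu.1
      have e2 : |ρ * (ell u - Real.log u)| ≤ |ρ| * 3 := by
        rw [abs_mul]
        exact mul_le_mul_of_nonneg_left e1 (abs_nonneg _)
      have e3 := (abs_le.1 e2).1
      have e4 := le_max_left (f u - ρ * Real.log u) 0
      have e5 := le_max_right (f u - ρ * Real.log u) 0
      refine max_le ?_ (by positivity)
      linarith
    rw [intervalIntegral.integral_add i1 i2, intervalIntegral.integral_const, smul_eq_mul] at h3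
    have h4 : B * T ≤ |B| * T := mul_le_mul_of_nonneg_right (le_abs_self B) (by linarith)
    have h5 : 0 ≤ |ρ| := abs_nonneg ρ
    nlinarith
  obtain ⟨h1, h2⟩ := Pool.Agent.TH270.MS.mean_lap hkm hkb (ε := |B| + 3 * |ρ| + 1) (by positivity)
    hint
  have hlap : ∀ x, lap k x = lap (kp f ρ) x := by
    intro x
    unfold lap
    refine setIntegral_congr_fun measurableSet_Ioi fun u hu => ?_
    rw [hk]
    simp only
    rw [indicator_of_mem hu]
  refine ⟨fun x hx => ?_, 2 * (|B| + 3 * |ρ| + 1), ?_⟩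
  · have := h1 x hx
    unfold LInt at *
    refine this.congr_fun (fun u hu => ?_) measurableSet_Ioi
    rw [hk]
    simp only
    rw [indicator_of_mem hu]
  · filter_upwards [h2] with x hx
    rwa [← hlap]

end Pool.Agent.H21.RD
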