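import Pool.Agent.H21.RD.Cen

/-!
# Mean laws for linear combinations: systems of primes
-/

set_option autoImplicit false

namespace Pool.Agent.H21.RD

open MeasureTheory Filter Topology Set
open Pool.Agent.H21.RC
open Pool.Agent.W263.BSD (LInt lap lapC lapC_ofReal lap_sub lap_add lap_const_mul ell ell_LInt
  ell_meas ell_nonneg ell_mono ell_lap_limit lap_mono log_le_ell)
open Pool.Agent.TH942.SL Pool.Agent.TH942.ES Pool.Agent.TH270.MS Pool.Agent.W5h26.ML

variable {ι : Type} [Fintype ι] {X : ι → Type} {d : ι → ℕ} {N : ∀ i, X i → ℕ}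
  {α : ∀ i, X i → Fin (d i) → ℂ} {G₀ : ι → ℂ → ℂ} {w : ι → ℝ} {p : ι → ℕ}

/-- the functions of a family of systems -/
structure Rep (N : ∀ i, X i → ℕ) (α : ∀ i, X i → Fin (d i) → ℂ) (G₀ : ι → ℂ → ℂ) (p : ι → ℕ)
    (a : ι → ℝ → ℝ) (c : ι → ℝ) : Prop where
  cen : Cen a G₀ (fun _ _ => 0) 1 p c
  eg : ∀ i, EG (a i)
  zero : ∀ i, ∀ u ≤ 0, a i u = 0
  pl : ∀ i, ∀ Y, 0 < Y → a i (Real.log Y) = -Pl (N i) (α i) Y

omit [Fintype ι] in
theorem exists_rep (H : ∀ i, Mh (N i) (α i) (G₀ i) 0) (hp : ∀ i, analyticOrderAt (G₀ i) 0 = p i) :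
    ∃ (a : ι → ℝ → ℝ) (c : ι → ℝ), Rep N α G₀ p a c := by
  choose e g q he hq Q using fun i => (H i).hy
  have hpq : ∀ i, q i = p i := fun i => by
    have h1 := hq i
    rw [hp i] at h1
    exact_mod_cast h1.symm
  set a : ι → ℝ → ℝ := fun i => Er (lamS (N i) (e i)) (Pool.Agent.TH270.RS.cS' (N i) (α i) (e i)) 0 0
    with ha
  refine ⟨a, fun i => ‖g i 0‖, ?_, ?_, ?_, ?_⟩
  · refine ⟨?_, fun i => ⟨0, Eventually.of_forall fun x => by simp⟩,
      fun i => norm_pos_iff.2 (Q i).hg0, fun i => ?_⟩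
    · refine ⟨fun i => er_meas (Q i).D 0 0, zero_le_one, fun i x hx => er_int (Q i).D 0 0 hx,
        fun i z hz => (Q i).hG z hz, fun i z _ => differentiableAt_const _, fun i z hz => ?_⟩
      rw [ha]
      simp only
      rw [er_lapC (Q i).D, er_lap (Q i).D 0 0 hz, ← (Q i).hexp z hz, pow_zero, one_mul]
      congr 1
      have hz0 : z ≠ 0 := by
        rintro rfl
        have : (1 : ℝ) < 0 := by simpa using hz
        linarith
      push_cast
      field_simp
      ring
    · have hofr : Tendsto (fun x : ℝ => (x : ℂ)) (𝓝[>] 0) (𝓝 0) := by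
        have h2 : Tendsto (fun x : ℝ => (x : ℂ)) (𝓝 0) (𝓝 ((0 : ℝ) : ℂ)) :=
          Complex.continuous_ofReal.continuousAt
        rw [Complex.ofReal_zero] at h2
        exact h2.mono_left nhdsWithin_le_nhds
      have hgc : Tendsto (fun x : ℝ => ‖g i x‖) (𝓝[>] 0) (𝓝 ‖g i 0‖) :=
        ((Q i).hg.continuousAt.tendsto.comp hofr).norm
      refine hgc.congr' ?_
      filter_upwards [hofr.eventually (Q i).near, self_mem_nhdsWithin] with x h1 h2
      have hx : (0 : ℝ) < x := h2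
      rw [h1, norm_mul, norm_pow, Complex.norm_real, Real.norm_of_nonneg hx.le, hpq i,
        mul_div_cancel_left₀ _ (pow_pos hx _).ne']
  · intro i
    obtain ⟨C, -, hC⟩ := er_le (Q i).D 0 0
    exact ⟨er_meas (Q i).D 0 0, C, 1, one_pos, hC⟩
  · intro i u hu
    exact er_zero (Q i).D 0 0 hu
  · intro i Y hY
    have h1 : a i (Real.log Y) =
        Sh (lamS (N i) (e i)) (Pool.Agent.TH270.RS.cS' (N i) (α i) (e i)) (Real.log Y) := by
      rw [ha]
      simp only
      unfold Er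
      simp
    rw [h1, sh_eq (H i).E (he i), Real.exp_log hY]

/-- the weighted sum of the logarithms of the products -/
noncomputable def LW (w : ι → ℝ) (N : ∀ i, X i → ℕ) (α : ∀ i, X i → Fin (d i) → ℂ) (y : ℝ) : ℝ :=
  ∑ i, w i * LP (N i) (α i) y

/-- the deviation -/
noncomputable def devW (w : ι → ℝ) (N : ∀ i, X i → ℕ) (α : ∀ i, X i → Fin (d i) → ℂ) (ρ y : ℝ) : ℝ :=
  LW w N α y - ρ * Real.log (Real.log y)

theorem bm_sum {κ : Type} (s : Finset κ) {f : κ → ℝ → ℝ} (h : ∀ i ∈ s, BM (f i)) :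
    BM fun y => ∑ i ∈ s, f i y := by
  classical
  induction s using Finset.induction_on with
  | empty => simpa using BM.const 0
  | insert i s hi ih =>
    simp only [Finset.sum_insert hi]
    exact (h i (Finset.mem_insert_self i s)).add (ih fun j hj => h j (Finset.mem_insert_of_mem hj))

theorem devW_bm (H : ∀ i, Sys (N i) (α i)) (ρ : ℝ) : BM (devW w N α ρ) := by
  unfold devW LW
  exact (bm_sum _ fun i _ => (BM.const (w i)).mul (lp_bm (H i))).sub ((BM.const ρ).mul BM.loglog)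

variable {a : ι → ℝ → ℝ} {c : ι → ℝ}

/-- the weighted sum over the prime powers -/
noncomputable def devC (w : ι → ℝ) (a : ι → ℝ → ℝ) (ρ y : ℝ) : ℝ :=
  comb w a (Real.log y) - ρ * Real.log (Real.log y)

theorem dev_closeW (R : Rep N α G₀ p a c) (H : ∀ i, Sys (N i) (α i)) :
    ∃ M : ℝ, ∀ ρ y : ℝ, Real.exp 1 ≤ y → |devW w N α ρ y - devC w a ρ y| ≤ M := by
  choose M hM using fun i => lp_pl (H i)
  refine ⟨∑ i, |w i| * M i, fun ρ y hy => ?_⟩
  have hy1 : 1 ≤ y := by linarith [Real.add_one_le_exp 1]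
  have h1 : devW w N α ρ y - devC w a ρ y = ∑ i, w i * (LP (N i) (α i) y + Pl (N i) (α i) y) := by
    unfold devW devC LW comb
    rw [sub_sub_sub_cancel_right, ← Finset.sum_sub_distrib]
    refine Finset.sum_congr rfl fun i _ => ?_
    rw [R.pl i y (by linarith)]
    ring
  rw [h1]
  refine (Finset.abs_sum_le_sum_abs _ _).trans (Finset.sum_le_sum fun i _ => ?_)
  rw [abs_mul]
  exact mul_le_mul_of_nonneg_left (hM i y hy1) (abs_nonneg _)

theorem devC_bm (R : Rep N α G₀ p a c) (H : ∀ i, Sys (N i) (α i)) (ρ : ℝ) : BM (devC w a ρ) := by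
  unfold devC comb
  refine (bm_sum _ fun i _ => (BM.const (w i)).mul ?_).sub ((BM.const ρ).mul BM.loglog)
  obtain ⟨M, hM⟩ := lp_pl (H i)
  refine (lp_bm (H i)).of_close (M := M) ?_ fun y hy => ?_
  · exact ((R.eg i).1.comp Real.measurable_log).aestronglyMeasurable
  · have hy1 : 1 ≤ y := by linarith [Real.add_one_le_exp 1]
    rw [R.pl i y (by linarith), sub_neg_eq_add]
    exact hM y hy1

/-- change of variables -/
theorem law_covW (ρ : ℝ) (φ : ℝ → ℝ) :
    Law (fun y => φ (devC w a ρ y)) ↔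
      ∃ B : ℝ, ∀ᶠ T : ℝ in atTop, ∫ u in (1 : ℝ)..T, φ (comb w a u - ρ * Real.log u) ≤ B * T := by
  unfold Law devC
  refine exists_congr fun B => ?_
  rw [eventually_exp_iff (f := fun Y => ∫ y in Real.exp 1..Y,
    φ (comb w a (Real.log y) - ρ * Real.log (Real.log y)) / y ≤ B * Real.log Y)]
  refine eventually_congr ?_
  filter_upwards [eventually_ge_atTop 1] with T hT
  rw [Real.log_exp, ← cov_ii _ hT]

theorem comb_eg (R : Rep N α G₀ p a c) : EG (comb w a) := by
  choose hm C σ hσ hC using R.eg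
  have hsum : ∀ i, σ i ≤ ∑ j, σ j := fun i =>
    Finset.single_le_sum (fun j _ => (hσ j).le) (Finset.mem_univ i)
  have hC0 : ∀ i, 0 ≤ C i := fun i => by
    have := (abs_nonneg _).trans (hC i 0)
    simpa using this
  have hs0 : 0 ≤ ∑ j, σ j := Finset.sum_nonneg fun j _ => (hσ j).le
  refine ⟨comb_meas R.cen.F, ∑ i, |w i| * C i, 1 + ∑ j, σ j, by positivity, fun u => ?_⟩
  rw [Finset.sum_mul]
  unfold comb
  refine (Finset.abs_sum_le_sum_abs _ _).trans (Finset.sum_le_sum fun i _ => ?_)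
  rw [abs_mul, mul_assoc]
  refine mul_le_mul_of_nonneg_left ?_ (abs_nonneg _)
  rcases le_or_gt u 0 with hu | hu
  · rw [R.zero i u hu, abs_zero]
    have := hC0 i
    positivity
  · refine (hC i u).trans (mul_le_mul_of_nonneg_left (Real.exp_le_exp.2 ?_) (hC0 i))
    exact mul_le_mul_of_nonneg_right (by linarith [hsum i]) hu.le

theorem comb_zero (R : Rep N α G₀ p a c) (u : ℝ) (hu : u ≤ 0) : comb w a u = 0 := by
  unfold comb
  exact Finset.sum_eq_zero fun i _ => by rw [R.zero i u hu, mul_zero]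

theorem rep_neg : comb (fun i => -w i) a = fun u => -comb w a u := funext fun u => comb_neg w a u

/-- consequences of the upper law -/
theorem law_kp (R : Rep N α G₀ p a c) (H : ∀ i, Sys (N i) (α i)) {ρ : ℝ}
    (h : Law fun y => max (devW w N α ρ y) 0) :
    (∀ x > 0, LInt (kp (comb w a) ρ) x) ∧
      ∃ C : ℝ, ∀ᶠ x : ℝ in 𝓝[>] 0, |x * lap (kp (comb w a) ρ) x| ≤ C := by
  obtain ⟨M, hM⟩ := dev_closeW (w := w) R H
  have h1 : Law fun y => max (devC w a ρ y) 0 :=
    (law_iff_of_close (devW_bm H ρ) (devC_bm R H ρ) (hM ρ)).1 h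
  obtain ⟨B, hB⟩ := (law_covW ρ (fun t => max t 0)).1 h1
  exact mean_kp (comb_eg R) (comb_zero R) hB

theorem ub_int {ρ : ℝ} (h : ∀ x > 0, LInt (kp (comb w a) ρ) x) :
    ∀ x > 0, LInt (fun u => kp (comb w a) ρ u + ρ * ell u) x := fun x hx =>
  (h x hx).add ((ell_LInt hx).const_mul ρ)

theorem ub_lap {ρ : ℝ} (h : ∀ x > 0, LInt (kp (comb w a) ρ) x)
    (h' : ∃ C : ℝ, ∀ᶠ x : ℝ in 𝓝[>] 0, |x * lap (kp (comb w a) ρ) x| ≤ C) :
    ∃ C : ℝ, ∀ᶠ x : ℝ in 𝓝[>] 0,
      x * lap (fun u => kp (comb w a) ρ u + ρ * ell u) x + ρ * Real.log x ≤ C := by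
  obtain ⟨C, hC⟩ := h'
  have h2 : ∀ᶠ x : ℝ in 𝓝[>] 0,
      |x * lap ell x + Real.log x| ≤ |Real.eulerMascheroniConstant| + 1 := by
    have := ell_lap_limit.abs.eventually
      (gt_mem_nhds (show |-Real.eulerMascheroniConstant| < |Real.eulerMascheroniConstant| + 1 by
        rw [abs_neg]; linarith))
    filter_upwards [this] with x hx using hx.le
  refine ⟨C + |ρ| * (|Real.eulerMascheroniConstant| + 1), ?_⟩
  filter_upwards [hC, h2, self_mem_nhdsWithin] with x e1 e2 e3
  have hx : (0 : ℝ) < x := e3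
  rw [lap_add (h x hx) ((ell_LInt hx).const_mul _), lap_const_mul]
  have e4 : x * (lap (kp (comb w a) ρ) x + ρ * lap ell x) + ρ * Real.log x =
      x * lap (kp (comb w a) ρ) x + ρ * (x * lap ell x + Real.log x) := by ring
  rw [e4]
  have e5 : |ρ * (x * lap ell x + Real.log x)| ≤ |ρ| * (|Real.eulerMascheroniConstant| + 1) := by
    rw [abs_mul]
    exact mul_le_mul_of_nonneg_left e2 (abs_nonneg _)
  linarith [(abs_le.1 e1).2, (abs_le.1 e5).2]

/-- **The upper law.** -/
theorem sys_upper (H : ∀ i, Mh (N i) (α i) (G₀ i) 0) (hp : ∀ i, analyticOrderAt (G₀ i) 0 = p i)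
    {ρ : ℝ} (h : Law fun y => max (devW w N α ρ y) 0)
    (hsg : ∀ x : ℝ, 0 < x → 0 ≤ mult w G₀ x) :
    (∀ s : ℂ, 0 < s.re → mult w G₀ s = 0) ∧ RR w p ≤ ρ := by
  obtain ⟨a, c, R⟩ := exists_rep H hp
  obtain ⟨h1, h2⟩ := law_kp R (fun i => (H i).E) h
  have h3 := ub_int h1
  have hconv : ∀ x > 0, LInt (comb w a) x := by
    refine R.cen.F.conv le_rfl ((kp_meas (comb_meas R.cen.F) ρ).add (ell_meas.const_mul ρ)) h3
      (Or.inl rfl) (fun u _ => ?_) (fun x hx => ?_)
    · rw [one_mul]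
      have := f_le_kp (comb w a) ρ u
      show 0 ≤ (kp (comb w a) ρ u + ρ * ell u) - comb w a u
      linarith
    · rw [one_mul]
      exact hsg x hx
  obtain ⟨C, hC⟩ := ub_lap h1 h2
  exact ⟨fun s hs => R.cen.F.mult_zero le_rfl hconv hs,
    R.cen.order_le hconv h3 (fun u _ => f_le_kp _ _ _) hC⟩

theorem devW_neg (ρ y : ℝ) : devW (fun i => -w i) N α (-ρ) y = -devW w N α ρ y := by
  unfold devW LW
  rw [neg_sub, neg_mul, sub_neg_eq_add]
  have : ∑ i, -w i * LP (N i) (α i) y = -∑ i, w i * LP (N i) (α i) y := by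
    rw [← Finset.sum_neg_distrib]
    exact Finset.sum_congr rfl fun i _ => by ring
  rw [this]
  ring

/-- **The two-sided law.** -/
theorem sys_both (H : ∀ i, Mh (N i) (α i) (G₀ i) 0) (hp : ∀ i, analyticOrderAt (G₀ i) 0 = p i)
    {ρ : ℝ} (h : Law fun y => |devW w N α ρ y|) :
    (∀ s : ℂ, 0 < s.re → mult w G₀ s = 0) ∧ RR w p = ρ := by
  obtain ⟨a, c, R⟩ := exists_rep H hp
  have hE : ∀ i, Sys (N i) (α i) := fun i => (H i).E
  obtain ⟨l1, l2⟩ := (law_abs (devW_bm hE ρ)).1 h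
  obtain ⟨h1, h2⟩ := law_kp R hE l1
  have l2' : Law fun y => max (devW (fun i => -w i) N α (-ρ) y) 0 := by
    simpa only [devW_neg] using l2
  obtain ⟨h1', h2'⟩ := law_kp R hE l2'
  have h3 := ub_int h1
  have h3' := ub_int h1'
  have hconv : ∀ x > 0, LInt (comb w a) x := by
    intro x hx
    refine Pool.Agent.W263.BSD.LInt.of_bound (comb_meas R.cen.F)
      (((h1 x hx).add (h1' x hx)).add ((ell_LInt hx).const_mul |ρ|)) fun u hu => ?_
    have e1 := f_le_kp (comb w a) ρ u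
    have e2 := f_le_kp (comb (fun i => -w i) a) (-ρ) u
    rw [show comb (fun i => -w i) a u = -comb w a u from comb_neg w a u] at e2
    have e3 := le_max_right (comb w a u - ρ * ell u) 0
    have e4 := le_max_right (comb (fun i => -w i) a u - -ρ * ell u) 0
    have e5 : 0 ≤ ell u := by linarith [ell_nonneg hu.le]
    have e6 : ρ * ell u ≤ |ρ| * ell u := mul_le_mul_of_nonneg_right (le_abs_self ρ) e5
    have e7 : -ρ * ell u ≤ |ρ| * ell u := mul_le_mul_of_nonneg_right (neg_le_abs ρ) e5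
    have e8 : 0 ≤ kp (comb w a) ρ u := e3
    have e9 : 0 ≤ kp (comb (fun i => -w i) a) (-ρ) u := e4
    rw [abs_le]
    constructor <;> linarith
  have hconv' : ∀ x > 0, LInt (comb (fun i => -w i) a) x := fun x hx => by
    rw [rep_neg]
    exact (hconv x hx).neg
  obtain ⟨C, hC⟩ := ub_lap h1 h2
  obtain ⟨C', hC'⟩ := ub_lap h1' h2'
  refine ⟨fun s hs => R.cen.F.mult_zero le_rfl hconv hs, le_antisymm
    (R.cen.order_le hconv h3 (fun u _ => f_le_kp _ _ _) hC) ?_⟩
  have h4 := R.cen.order_le hconv' h3' (fun u _ => f_le_kp _ _ _) hC'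
  rw [RR_neg] at h4
  linarith

/-- linearly independent weights -/
theorem indep_sys (H : ∀ i, Mh (N i) (α i) (G₀ i) 0) (hp : ∀ i, analyticOrderAt (G₀ i) 0 = p i)
    (hw : LinearIndependent ℚ w) {s : ℂ} (hs : 0 < s.re) (h : mult w G₀ s = 0) (i : ι) :
    G₀ i s ≠ 0 := by
  obtain ⟨a, c, R⟩ := exists_rep H hp
  have h1 := Fintype.linearIndependent_iff.1 hw (fun i => (analyticOrderNatAt (G₀ i) s : ℚ)) (by
    unfold mult at h
    rw [← h]
    refine Finset.sum_congr rfl fun i _ => ?_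
    rw [Rat.smul_def]
    push_cast
    ring) i
  have h2 : analyticOrderNatAt (G₀ i) s = 0 := by exact_mod_cast h1
  have h3 := R.cen.F.order_ne_top i hs
  have h4 : analyticOrderAt (G₀ i) s = 0 := by
    unfold analyticOrderNatAt at h2
    rw [ENat.toNat_eq_zero] at h2
    exact h2.resolve_right h3
  exact (R.cen.F.Phi_an i s hs).analyticOrderAt_eq_zero.1 h4

theorem indep_nat (hw : LinearIndependent ℚ w) {r r' : ι → ℕ} (h : RR w r = RR w r') : r = r' := by
  have h1 := Fintype.linearIndependent_iff.1 hw (fun i => (r i : ℚ) - r' i) (by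
    unfold RR at h
    rw [← sub_eq_zero, ← Finset.sum_sub_distrib] at h
    rw [← h]
    refine Finset.sum_congr rfl fun i _ => ?_
    rw [Rat.smul_def]
    push_cast
    ring)
  funext i
  have h2 := h1 i
  rw [sub_eq_zero] at h2
  exact_mod_cast h2

/-- the order after the shift, at the other points -/
theorem nat_shift (F : ℂ → ℂ) (z : ℂ) :
    analyticOrderNatAt (fun s => F (1 + s)) z = analyticOrderNatAt F (1 + z) := by
  have hg : AnalyticAt ℂ (fun w : ℂ => 1 + w) z := by fun_prop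
  have := analyticOrderAt_comp_of_deriv_ne_zero (f := F) (g := fun w : ℂ => 1 + w) (z₀ := z) hg (by
    have : deriv (fun w : ℂ => 1 + w) z = 1 := by
      rw [deriv_const_add]
      exact deriv_id z
    rw [this]
    exact one_ne_zero)
  unfold analyticOrderNatAt
  exact congrArg ENat.toNat this

/-- the sum of the individual laws -/
theorem law_sum (hE : ∀ i, Sys (N i) (α i)) {ρ : ι → ℝ}
    (h : ∀ i, Law fun y => |dev (N i) (α i) (ρ i) y|) :
    Law fun y => |devW w N α (∑ i, w i * ρ i) y| := by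
  have hbm : ∀ i, BM (dev (N i) (α i) (ρ i)) := fun i => dev_bm (hE i) _
  have habs : ∀ i, LI fun y => |w i| * |dev (N i) (α i) (ρ i) y| := fun i => by
    have := ((BM.const (w i)).mul (hbm i)).li.abs
    simpa only [abs_mul] using this
  have h1 : ∀ i, Law fun y => |w i| * |dev (N i) (α i) (ρ i) y| := fun i => by
    obtain ⟨B, hB⟩ := h i
    refine ⟨|w i| * B, ?_⟩
    filter_upwards [hB] with Y hY
    have e : (fun y => |w i| * |dev (N i) (α i) (ρ i) y| / y) =
        fun y => |w i| * (|dev (N i) (α i) (ρ i) y| / y) := by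
      funext y
      rw [mul_div_assoc]
    rw [e, intervalIntegral.integral_const_mul, mul_assoc]
    exact mul_le_mul_of_nonneg_left hY (abs_nonneg _)
  have h2 : ∀ s : Finset ι, Law (fun y => ∑ i ∈ s, |w i| * |dev (N i) (α i) (ρ i) y|) ∧
      LI (fun y => ∑ i ∈ s, |w i| * |dev (N i) (α i) (ρ i) y|) := by
    classical
    intro s
    induction s using Finset.induction_on with
    | empty =>
      refine ⟨⟨0, Eventually.of_forall fun Y => by simp⟩, ?_⟩
      simpa using (BM.const 0).li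
    | insert i s hi ih =>
      simp only [Finset.sum_insert hi]
      refine ⟨law_add (habs i) ih.2 (h1 i) ih.1, fun Y hY => (habs i Y hY).add (ih.2 Y hY)⟩
  refine law_mono (devW_bm hE _).li.abs (h2 Finset.univ).2 (fun y _ => ?_) (h2 Finset.univ).1
  have h3 : devW w N α (∑ i, w i * ρ i) y = ∑ i, w i * dev (N i) (α i) (ρ i) y := by
    unfold devW LW dev
    rw [Finset.sum_mul, ← Finset.sum_sub_distrib]
    exact Finset.sum_congr rfl fun i _ => by ring
  rw [h3]
  refine (Finset.abs_sum_le_sum_abs _ _).trans (le_of_eq ?_)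
  exact Finset.sum_congr rfl fun i _ => by rw [abs_mul]

end Pool.Agent.H21.RD
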