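import Pool.Agent.H21.RD.Sys
import Pool.Agent.H21.L.R_pool_sql_team_seeded_2aa45f1a.Q5.VA.Abel

/-!
# Euler products of varieties: continuations and the system of primes
-/

set_option autoImplicit false

namespace Pool.Agent.H21.RD

open Filter Topology Set Complex NumberField IsDedekindDomain MeasureTheory
open Pool.Agent.TH942.ES (Sys zv xv cv)
open Pool.Agent.H921R2.TatePole (nm two_le_nm)
open Pool.Agent.TH270.MS (Mc)
open Pool.Agent.W5h26.ML (Mh Law dev law_of)
open Pool.Agent.Q5.VA (NS aD Frob)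

variable {K : Type} [Field K] [NumberField K] {n : ℕ} {X : Set (MvPolynomial (Fin n) (𝓞 K))}
  {d N i : ℕ} {S : Finset (HeightOneSpectrum (𝓞 K))} {α : HeightOneSpectrum (𝓞 K) → Fin N → ℂ}

/-- the product over the primes -/
theorem prod_eq (h : Frob X d i S α) (hi : i ≤ 2 * d) {F : ℂ → ℂ} {c : ℝ} (hc : c = ((i : ℝ) + 1) / 2)
    (hF : ∀ s : ℂ, c + 1 / 2 < s.re → HasProd (fun v : {v : HeightOneSpectrum (𝓞 K) // v ∉ S} =>
      (∏ j, (1 - α v.1 j * (nm v.1 : ℂ) ^ (-s)))⁻¹) (F s)) (s : ℂ) (hs : 1 / 2 < s.re) :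
    F (c + s) = Pool.Agent.TH942.ES.LE (NS S) (aD i S α) s := by
  have h1 := hF (c + s) (by rw [Complex.add_re, Complex.ofReal_re]; linarith)
  unfold Pool.Agent.TH942.ES.LE
  rw [← h1.tprod_eq]
  refine tprod_congr fun v => ?_
  have h2 := Pool.Agent.Q5.VA.factorD (i := i) (S := S) (α := α) v (c + s)
  rw [← hc, add_sub_cancel_left] at h2
  exact h2.symm

/-- the incomplete `L`-series continues to `F` -/
theorem var_mh (h : Frob X d i S α) (hi : i ≤ 2 * d) {F : ℂ → ℂ} {c : ℝ} (hc : c = ((i : ℝ) + 1) / 2)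
    (hF1 : ∀ s : ℂ, c < s.re → DifferentiableAt ℂ F s) (hF2 : AnalyticAt ℂ F c)
    (hF : ∀ s : ℂ, c + 1 / 2 < s.re → HasProd (fun v : {v : HeightOneSpectrum (𝓞 K) // v ∉ S} =>
      (∏ j, (1 - α v.1 j * (nm v.1 : ℂ) ^ (-s)))⁻¹) (F s)) :
    Mh (NS S) (aD i S α) (fun s => F (c + s)) 0 where
  E := h.sys hi
  hreal := h.real hi
  hG := fun s hs => by
    have h1 : DifferentiableAt ℂ F (c + s) := hF1 _ (by
      rw [Complex.add_re, Complex.ofReal_re]
      linarith)
    exact h1.comp (f := fun s : ℂ => (c : ℂ) + s) s (by fun_prop)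
  h0 := by
    have h1 : AnalyticAt ℂ (fun z : ℂ => (c : ℂ) + z) 0 := by fun_prop
    exact AnalyticAt.comp (f := fun z : ℂ => (c : ℂ) + z) (by simpa using hF2) h1
  hL := fun s hs => by
    rw [pow_zero, one_mul]
    exact prod_eq h hi hc hF s hs

theorem var_mc (h : Frob X d i S α) (hi : i ≤ 2 * d) {F : ℂ → ℂ} {c : ℝ} (hc : c = ((i : ℝ) + 1) / 2)
    {η C₀ : ℝ} {κ : ℕ} (hη : 0 < η)
    (hF1 : ∀ s : ℂ, c - η < s.re → DifferentiableAt ℂ F s)
    (hg : ∀ s : ℂ, c - η < s.re → ‖F s‖ ≤ C₀ * (1 + ‖s‖) ^ κ)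
    (hF : ∀ s : ℂ, c + 1 / 2 < s.re → HasProd (fun v : {v : HeightOneSpectrum (𝓞 K) // v ∉ S} =>
      (∏ j, (1 - α v.1 j * (nm v.1 : ℂ) ^ (-s)))⁻¹) (F s)) :
    Mc (NS S) (aD i S α) (fun s => F (c + s)) (fun s => F (c + s)) 0 κ η (|C₀| * (1 + |c|) ^ κ) where
  E := h.sys hi
  hreal := h.real hi
  hη := hη
  hG := fun s hs => by
    have h1 : DifferentiableAt ℂ F (c + s) := hF1 _ (by
      rw [Complex.add_re, Complex.ofReal_re]
      linarith)
    exact h1.comp (f := fun s : ℂ => (c : ℂ) + s) s (by fun_prop)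
  hgrow := fun s hs => by
    refine (hg (c + s) (by
      rw [Complex.add_re, Complex.ofReal_re]
      linarith)).trans ?_
    have h1 : 1 + ‖(c : ℂ) + s‖ ≤ (1 + |c|) * (1 + ‖s‖) := by
      have := norm_add_le (c : ℂ) s
      rw [Complex.norm_real, Real.norm_eq_abs] at this
      nlinarith [norm_nonneg s, abs_nonneg c]
    calc C₀ * (1 + ‖(c : ℂ) + s‖) ^ κ ≤ |C₀| * ((1 + |c|) * (1 + ‖s‖)) ^ κ := by
          gcongr
          exact le_abs_self C₀
      _ = _ := by
          rw [mul_pow]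
          ring
  hΨ := fun s _ _ => by rw [pow_zero, one_mul]
  hL := fun s hs => prod_eq h hi hc hF s hs

/-- the order after the shift -/
theorem order_shiftC {F : ℂ → ℂ} {c : ℂ} (hF : AnalyticAt ℂ F c) (n : ℕ) :
    analyticOrderAt (fun s => F (c + s)) 0 = n ↔ analyticOrderAt F c = n := by
  have hg : AnalyticAt ℂ (fun w : ℂ => c + w) 0 := by fun_prop
  have := analyticOrderAt_comp_of_deriv_ne_zero (f := F) (g := fun w : ℂ => c + w) (z₀ := 0) hg (by
    have : deriv (fun w : ℂ => c + w) 0 = 1 := by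
      rw [deriv_const_add]
      exact deriv_id (0 : ℂ)
    rw [this]
    exact one_ne_zero)
  simp only [add_zero] at this
  rw [← this]
  rfl

theorem nat_shiftC (F : ℂ → ℂ) (c z : ℂ) :
    analyticOrderNatAt (fun s => F (c + s)) z = analyticOrderNatAt F (c + z) := by
  have hg : AnalyticAt ℂ (fun w : ℂ => c + w) z := by fun_prop
  have := analyticOrderAt_comp_of_deriv_ne_zero (f := F) (g := fun w : ℂ => c + w) (z₀ := z) hg (by
    have : deriv (fun w : ℂ => c + w) z = 1 := by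
      rw [deriv_const_add]
      exact deriv_id z
    rw [this]
    exact one_ne_zero)
  unfold analyticOrderNatAt
  exact congrArg ENat.toNat this

end Pool.Agent.H21.RD
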